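import Pool.Agent.H74.RK.GeoB

/-!
# Theorem R, module GEO: a disc with large Fubini-Study derivative gives a normalised disc
-/

set_option autoImplicit false

namespace Pool.Agent.H74.RK

open MeasureTheory Metric Set Filter Topology Pool.Agent.H48.RK
open scoped BigOperators ComplexConjugate InnerProductSpace

/-- coordinate vectors as elements of the Hermitian space -/
noncomputable def toE {m : ℕ} (x : Fin m → ℂ) : E m := WithLp.toLp 2 x

theorem norm_toE {m : ℕ} (x : Fin m → ℂ) : ‖toE x‖ ^ 2 = ∑ i, ‖x i‖ ^ 2 := by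
  unfold toE
  rw [EuclideanSpace.norm_sq_eq]

theorem inner_toE {m : ℕ} (x y : Fin m → ℂ) :
    ‖inner ℂ (toE x) (toE y)‖ = ‖∑ i, x i * conj (y i)‖ := by
  have h : inner ℂ (toE x) (toE y) = conj (∑ i, x i * conj (y i)) := by
    unfold toE
    rw [PiLp.inner_apply, map_sum]
    refine Finset.sum_congr rfl fun i _ => ?_
    simp [mul_comm]
  rw [h, Complex.norm_conj]

theorem fs_eq {m : ℕ} (f : ℂ → Fin m → ℂ) (z : ℂ) :
    fs f z = Real.sqrt (wd (toE (f z)) (toE (deriv f z))) / ‖toE (f z)‖ ^ 2 := by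
  unfold fs wd
  rw [norm_toE, norm_toE, inner_toE]

theorem fs_nonneg {m : ℕ} (f : ℂ → Fin m → ℂ) (z : ℂ) : 0 ≤ fs f z := by
  rw [fs_eq]; positivity

theorem toE_ne {m : ℕ} {x : Fin m → ℂ} (h : x ≠ 0) : toE x ≠ 0 := by
  intro h0
  apply h
  have := congrArg (fun y : E m => y.ofLp) h0
  simpa [toE] using this

/-- the Gram determinant in terms of the Fubini-Study derivative -/
theorem wd_eq {m : ℕ} {f : ℂ → Fin m → ℂ} {z : ℂ} (h : f z ≠ 0) :
    wd (toE (f z)) (toE (deriv f z)) = (fs f z * ‖toE (f z)‖ ^ 2) ^ 2 := by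
  have h1 : 0 < ‖toE (f z)‖ := norm_pos_iff.2 (toE_ne h)
  rw [fs_eq, div_mul_cancel₀ _ (by positivity), Real.sq_sqrt (wd_nonneg _ _)]

theorem wd_smul {m : ℕ} (x y : E m) (l : ℂ) : wd x (l • y) = ‖l‖ ^ 2 * wd x y := by
  unfold wd
  rw [norm_smul, inner_smul_right, norm_mul]
  ring

/-- `toE` as a continuous linear map -/
noncomputable def toEL (m : ℕ) : (Fin m → ℂ) →L[ℂ] E m :=
  ((PiLp.continuousLinearEquiv 2 ℂ (fun _ : Fin m => ℂ)).symm : (Fin m → ℂ) →L[ℂ] E m)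

theorem toEL_apply {m : ℕ} (x : Fin m → ℂ) : toEL m x = toE x := rfl

theorem deriv_toE {m : ℕ} {f : ℂ → Fin m → ℂ} {z : ℂ} (h : DifferentiableAt ℂ f z) :
    HasDerivAt (fun w => toE (f w)) (toE (deriv f z)) z :=
  ((toEL m).hasFDerivAt (x := f z)).comp_hasDerivAt z h.hasDerivAt

theorem fs_cont {m : ℕ} {f : ℂ → Fin m → ℂ} (hf : DifferentiableOn ℂ f (ball 0 1))
    (hne : ∀ z ∈ ball (0 : ℂ) 1, f z ≠ 0) : ContinuousOn (fs f) (ball 0 1) := by
  have h1 : ContinuousOn f (ball 0 1) := hf.continuousOn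
  have h2 : ContinuousOn (deriv f) (ball 0 1) := (hf.deriv isOpen_ball).continuousOn
  have h1' : ContinuousOn (fun z => toE (f z)) (ball 0 1) :=
    (toEL m).continuous.comp_continuousOn h1
  have h2' : ContinuousOn (fun z => toE (deriv f z)) (ball 0 1) :=
    (toEL m).continuous.comp_continuousOn h2
  have e : fs f = fun z => Real.sqrt (wd (toE (f z)) (toE (deriv f z))) / ‖toE (f z)‖ ^ 2 :=
    funext fun z => fs_eq f z
  rw [e]
  refine ContinuousOn.div ?_ (h1'.norm.pow 2) fun z hz =>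
    pow_ne_zero 2 (norm_ne_zero_iff.2 (toE_ne (hne z hz)))
  refine ContinuousOn.sqrt ?_
  unfold wd
  exact ((h1'.norm.pow 2).mul (h2'.norm.pow 2)).sub ((h1'.inner h2').norm.pow 2)

/-- Hofer's lemma: rescaling -/
theorem rescale {m : ℕ} {f : ℂ → Fin m → ℂ} (hf : DifferentiableOn ℂ f (ball 0 1))
    (hne : ∀ z ∈ ball (0 : ℂ) 1, f z ≠ 0) (h4 : 4 ≤ fs f 0) :
    ∃ (x : ℂ) (l : ℝ), 0 < l ∧ (∀ w ∈ ball (0 : ℂ) 1, x + l * w ∈ ball (0 : ℂ) 1) ∧
      l * fs f x = 1 ∧ ∀ w ∈ ball (0 : ℂ) 1, l * fs f (x + l * w) ≤ 2 := by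
  have hsub : closedBall (0 : ℂ) (7 / 8) ⊆ ball 0 1 := closedBall_subset_ball (by norm_num)
  have hcomp : CompleteSpace (closedBall (0 : ℂ) (7 / 8)) := isClosed_closedBall.completeSpace_coe
  have h0 : (0 : ℂ) ∈ closedBall (0 : ℂ) (7 / 8) := mem_closedBall_self (by norm_num)
  have hc : Continuous (fun z : closedBall (0 : ℂ) (7 / 8) => fs f z) :=
    continuousOn_iff_continuous_domRestrict.1 ((fs_cont hf hne).mono hsub)
  obtain ⟨e, he, x, he4, hx, h1, h2⟩ := hofer (⟨0, h0⟩ : closedBall (0 : ℂ) (7 / 8)) (1 / 4)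
    (by norm_num) hc (fun z => fs_nonneg f z)
  have hx' : ‖(x : ℂ)‖ ≤ 1 / 2 := by
    have : dist (x : ℂ) 0 ≤ 2 * (1 / 4) := hx
    rw [dist_zero_right] at this
    linarith
  have h3 : 1 ≤ e * fs f x := by
    have : 1 / 4 * fs f 0 ≤ e * fs f x := h1
    linarith
  have hp : 0 < fs f x := by
    by_contra h
    have : e * fs f x ≤ 0 := mul_nonpos_of_nonneg_of_nonpos he.le (not_lt.1 h)
    linarith
  have hl : 0 < (fs f x)⁻¹ := inv_pos.2 hp
  have hle : (fs f x)⁻¹ ≤ e := by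
    rw [inv_le_iff_one_le_mul₀ hp]
    exact h3
  have hw : ∀ w ∈ ball (0 : ℂ) 1, ‖(((fs f x)⁻¹ : ℝ) : ℂ) * w‖ ≤ e := by
    intro w hw
    rw [mem_ball_zero_iff] at hw
    rw [norm_mul, Complex.norm_real, Real.norm_of_nonneg hl.le]
    nlinarith [norm_nonneg w]
  refine ⟨x, (fs f x)⁻¹, hl, fun w hwb => ?_, inv_mul_cancel₀ hp.ne', fun w hwb => ?_⟩
  · rw [mem_ball_zero_iff]
    refine lt_of_le_of_lt (norm_add_le _ _) ?_
    linarith [hw w hwb]
  · have hy : (x : ℂ) + (((fs f x)⁻¹ : ℝ) : ℂ) * w ∈ closedBall (0 : ℂ) (7 / 8) := by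
      rw [mem_closedBall_zero_iff]
      refine (norm_add_le _ _).trans ?_
      linarith [hw w hwb]
    have h5 := h2 ⟨_, hy⟩ (by
      show dist (x : ℂ) ((x : ℂ) + (((fs f x)⁻¹ : ℝ) : ℂ) * w) ≤ e
      rw [dist_self_add_right]
      exact hw w hwb)
    have h6 : fs f ((x : ℂ) + (((fs f x)⁻¹ : ℝ) : ℂ) * w) ≤ 2 * fs f x := h5
    calc (fs f x)⁻¹ * fs f ((x : ℂ) + (((fs f x)⁻¹ : ℝ) : ℂ) * w)
        ≤ (fs f x)⁻¹ * (2 * fs f x) := mul_le_mul_of_nonneg_left h6 hl.le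
      _ = 2 := by field_simp

theorem geoD : GeoD := by
  intro m f hf hne h4
  obtain ⟨x, l, hl, hin, hx1, hx2⟩ := rescale hf hne h4
  set F : ℂ → E m := fun w => toE (f (x + l * w)) with hFdef
  have hln : ‖(l : ℂ)‖ = l := by rw [Complex.norm_real, Real.norm_of_nonneg hl.le]
  have hFd : ∀ w ∈ ball (0 : ℂ) 1, HasDerivAt F ((l : ℂ) • toE (deriv f (x + l * w))) w := by
    intro w hw
    have h1 : HasDerivAt (fun w : ℂ => x + l * w) (l : ℂ) w := by
      simpa using ((hasDerivAt_id w).const_mul (l : ℂ)).const_add x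
    exact (deriv_toE (hf.differentiableAt (isOpen_ball.mem_nhds (hin w hw)))).scomp w h1
  have hFD : DifferentiableOn ℂ F (ball 0 1) := fun w hw =>
    (hFd w hw).differentiableAt.differentiableWithinAt
  have hFne : ∀ w ∈ ball (0 : ℂ) 1, F w ≠ 0 := fun w hw => toE_ne (hne _ (hin w hw))
  have hwd : ∀ w ∈ ball (0 : ℂ) 1, wd (F w) (deriv F w) =
      (l * fs f (x + l * w)) ^ 2 * ‖F w‖ ^ 4 := by
    intro w hw
    rw [(hFd w hw).deriv, wd_smul, hln]
    have h1 := wd_eq (hne _ (hin w hw))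
    show l ^ 2 * wd (toE (f (x + l * w))) (toE (deriv f (x + l * w))) = _
    rw [h1]
    show _ = (l * fs f (x + l * w)) ^ 2 * ‖toE (f (x + l * w))‖ ^ 4
    ring
  have hD : ∀ w ∈ ball (0 : ℂ) 1, wd (F w) (deriv F w) ≤ 4 * ‖F w‖ ^ 4 := by
    intro w hw
    rw [hwd w hw]
    refine mul_le_mul_of_nonneg_right ?_ (by positivity)
    have h1 := hx2 w hw
    have h2 : 0 ≤ l * fs f (x + l * w) := mul_nonneg hl.le (fs_nonneg _ _)
    nlinarith
  have hb0 : (0 : ℂ) ∈ ball (0 : ℂ) 1 := mem_ball_self one_pos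
  have hF0 : 0 < ‖F 0‖ := norm_pos_iff.2 (hFne 0 hb0)
  have hF0c : ((‖F 0‖ : ℝ) : ℂ) ≠ 0 := by exact_mod_cast hF0.ne'
  set u : E m := ((‖F 0‖ : ℝ) : ℂ)⁻¹ • F 0 with hu
  have hun : ‖u‖ = 1 := by
    rw [hu, norm_smul, norm_inv, Complex.norm_real, norm_norm, inv_mul_cancel₀ hF0.ne']
  have hFu : F 0 = ((‖F 0‖ : ℝ) : ℂ) • u := by
    rw [hu, smul_smul, mul_inv_cancel₀ hF0c, one_smul]
  have hin0 : inner ℂ u (F 0) = ((‖F 0‖ : ℝ) : ℂ) := by
    conv_lhs => rw [hFu]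
    rw [inner_smul_right, inner_self_one hun, mul_one]
  have ha0 : inner ℂ u (F 0) ≠ 0 := by rw [hin0]; exact hF0c
  have hn0 : nc u F 0 = 0 := by
    unfold nc
    rw [hin0, ← hu, sub_self]
  have core : ∀ t ∈ ball (0 : ℂ) 1, inner ℂ u (F (t / 4)) ≠ 0 ∧ ‖nc u F (t / 4)‖ ≤ 3 / 5 := by
    intro t ht
    apply disc_core hun hFD hFne hn0 ha0 hD
    rw [mem_ball_zero_iff] at ht
    rw [norm_div, Complex.norm_ofNat]
    linarith
  have hin4 : ∀ t ∈ ball (0 : ℂ) 1, t / 4 ∈ ball (0 : ℂ) 1 := by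
    intro t ht
    rw [mem_ball_zero_iff] at ht ⊢
    rw [norm_div, Complex.norm_ofNat]
    linarith
  set h : ℂ → E m := fun t => (inner ℂ u (F (t / 4)))⁻¹ • F (t / 4) with hh
  have hhn : ∀ t, h t = nc u F (t / 4) + u := by
    intro t
    rw [hh]
    unfold nc
    simp
  have hhd : ∀ t ∈ ball (0 : ℂ) 1, HasDerivAt h
      ((1 / 4 : ℂ) • (((inner ℂ u (F (t / 4))) ^ 2)⁻¹ • (inner ℂ u (F (t / 4)) • deriv F (t / 4) -
        inner ℂ u (deriv F (t / 4)) • F (t / 4)))) t := by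
    intro t ht
    have h1 : HasDerivAt (fun t : ℂ => t / 4) (1 / 4) t := (hasDerivAt_id t).div_const 4
    have h2 := nc_deriv (u := u) (hFd _ (hin4 t ht)) (core t ht).1
    rw [← (hFd _ (hin4 t ht)).deriv] at h2
    have h3 := (h2.scomp t h1).add_const u
    exact h3.congr_of_eventuallyEq (Eventually.of_forall fun s => hhn s)
  have hh0 : h 0 = u := by
    rw [hhn, zero_div, hn0, zero_add]
  refine ⟨h, ⟨fun t ht => (hhd t ht).differentiableAt.differentiableWithinAt, by rw [hh0, hun],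
    fun t ht => ?_, fun t ht => ?_, ?_⟩, fun t ht => ⟨x + l * (t / 4), hin _ (hin4 t ht),
      (inner ℂ u (F (t / 4)))⁻¹, ?_⟩⟩
  · rw [hh0, hhn, add_sub_cancel_right]
    exact nc_orth hun (core t ht).1
  · rw [hh0, hhn, add_sub_cancel_right]
    exact (core t ht).2
  · rw [(hhd 0 hb0).deriv, zero_div, norm_smul, norm_smul, norm_inv, norm_pow]
    have h1 : ‖inner ℂ u (F 0) • deriv F 0 - inner ℂ u (deriv F 0) • F 0‖ ^ 2 =
        wd (F 0) (deriv F 0) := by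
      have h2 := gram_eq hun ((‖F 0‖ : ℝ) : ℂ) (deriv F 0)
      rw [← hFu] at h2
      exact h2
    have h2 : wd (F 0) (deriv F 0) = (‖F 0‖ ^ 2) ^ 2 := by
      rw [hwd 0 hb0, mul_zero, add_zero, hx1]
      ring
    have h3 : ‖inner ℂ u (F 0) • deriv F 0 - inner ℂ u (deriv F 0) • F 0‖ = ‖F 0‖ ^ 2 := by
      rw [h2] at h1
      exact (pow_left_inj₀ (norm_nonneg _) (by positivity) two_ne_zero).1 h1
    rw [h3, hin0, Complex.norm_real, norm_norm, inv_mul_cancel₀ (by positivity)]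
    norm_num
  · show ((inner ℂ u (F (t / 4)))⁻¹ • F (t / 4)).ofLp = _
    rfl

end Pool.Agent.H74.RK
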