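import Pool.Agent.H48.RK.DefsR
import Pool.Agent.H74.RK.Geo

/-!
# Theorem L with the parameter `r`, module GEOR: a disc whose Fubini-Study derivative at `0` is at
least `4 r` gives a normalised disc of size `r`
-/

set_option autoImplicit false

namespace Pool.Agent.H74.RK

open MeasureTheory Metric Set Filter Topology Pool.Agent.H48.RK
open scoped BigOperators ComplexConjugate InnerProductSpace

section

variable {V : Type*} [NormedAddCommGroup V] [InnerProductSpace ℂ V]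

theorem nc_boundR {r : ℝ} (hr : 0 < r) {u : V} (hu : ‖u‖ = 1) {F : ℂ → V} {F' : V} {z : ℂ}
    (ha : inner ℂ u (F z) ≠ 0) (hD : wd (F z) F' ≤ (2 * r) ^ 2 * ‖F z‖ ^ 4) :
    ‖((inner ℂ u (F z)) ^ 2)⁻¹ • (inner ℂ u (F z) • F' - inner ℂ u F' • F z)‖ ≤
      2 * r * (1 + ‖nc u F z‖ ^ 2) := by
  have hp : 0 < ‖inner ℂ u (F z)‖ := norm_pos_iff.2 ha
  have h1 : ‖inner ℂ u (F z) • F' - inner ℂ u F' • F z‖ ≤ 2 * r * ‖F z‖ ^ 2 := by
    refine abs_le_of_sq_le_sq' ?_ (by positivity) |>.2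
    refine ((gram hu (F z) F').trans hD).trans (le_of_eq ?_)
    ring
  rw [norm_smul, norm_inv, norm_pow, inv_mul_le_iff₀ (by positivity)]
  refine h1.trans (le_of_eq ?_)
  rw [nc_norm hu ha]
  ring

theorem path_boundR {r : ℝ} (hr : 0 < r) (hr1 : r ≤ 1) {u : V} (hu : ‖u‖ = 1) {F : ℂ → V}
    (hF : DifferentiableOn ℂ F (ball 0 1)) (h0 : nc u F 0 = 0)
    (hD : ∀ z ∈ ball (0 : ℂ) 1, wd (F z) (deriv F z) ≤ (2 * r) ^ 2 * ‖F z‖ ^ 4) {w : ℂ}
    (hw : ‖w‖ ≤ 1 / 4) {t1 : ℝ} (ht0 : 0 ≤ t1) (ht1 : t1 ≤ 1)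
    (hA : ∀ t ∈ Icc (0 : ℝ) t1, inner ℂ u (F ((t : ℂ) * w)) ≠ 0) :
    ‖nc u F ((t1 : ℂ) * w)‖ ≤ 3 / 5 * r := by
  have hin : ∀ t ∈ Icc (0 : ℝ) t1, (t : ℂ) * w ∈ ball (0 : ℂ) 1 := by
    intro t ht
    rw [mem_ball_zero_iff, norm_mul, Complex.norm_real, Real.norm_of_nonneg ht.1]
    nlinarith [ht.1, ht.2, norm_nonneg w]
  have hder : ∀ t ∈ Icc (0 : ℝ) t1, HasDerivAt (fun s : ℝ => nc u F ((s : ℂ) * w))
      (w • (((inner ℂ u (F ((t : ℂ) * w))) ^ 2)⁻¹ • (inner ℂ u (F ((t : ℂ) * w)) •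
        deriv F ((t : ℂ) * w) - inner ℂ u (deriv F ((t : ℂ) * w)) • F ((t : ℂ) * w)))) t := by
    intro t ht
    have h1 : HasDerivAt F (deriv F ((t : ℂ) * w)) ((t : ℂ) * w) :=
      (hF.differentiableAt (isOpen_ball.mem_nhds (hin t ht))).hasDerivAt
    have h2 := nc_deriv (u := u) h1 (hA t ht)
    have h3 : HasDerivAt (fun s : ℝ => (s : ℂ) * w) w t := by
      simpa using (Complex.ofRealCLM.hasDerivAt (x := t)).mul_const w
    exact h2.scomp t h3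
  have key := image_norm_le_of_norm_deriv_right_lt_deriv_boundary'
    (f := fun s : ℝ => nc u F ((s : ℂ) * w)) (a := 0) (b := t1)
    (f' := fun t => w • (((inner ℂ u (F ((t : ℂ) * w))) ^ 2)⁻¹ • (inner ℂ u (F ((t : ℂ) * w)) •
        deriv F ((t : ℂ) * w) - inner ℂ u (deriv F ((t : ℂ) * w)) • F ((t : ℂ) * w))))
    (fun t ht => (hder t ht).continuousAt.continuousWithinAt)
    (fun t ht => (hder t ⟨ht.1, ht.2.le⟩).hasDerivWithinAt)
    (B := fun t => r * (13 / 25 * t + 2 / 25 * t ^ 3)) (B' := fun t => r * (13 / 25 + 6 / 25 * t ^ 2))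
    (by simp [h0]) (by fun_prop)
    (fun t ht => by
      have h1 : HasDerivAt (fun t : ℝ => r * (13 / 25 * t + 2 / 25 * t ^ 3))
          (r * (13 / 25 * 1 + 2 / 25 * ((3 : ℕ) * t ^ 2 * 1))) t :=
        (((hasDerivAt_id t).const_mul (13 / 25)).add
          (((hasDerivAt_id t).pow 3).const_mul (2 / 25))).const_mul r
      refine (h1.congr_deriv ?_).hasDerivWithinAt
      push_cast; ring)
    (fun t ht hB => by
      have ht' : t ∈ Icc (0 : ℝ) t1 := ⟨ht.1, ht.2.le⟩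
      have h1 := nc_boundR hr hu (hA t ht') (hD _ (hin t ht'))
      rw [norm_smul]
      rw [hB] at h1
      have h2 : ‖w‖ * ‖((inner ℂ u (F ((t : ℂ) * w))) ^ 2)⁻¹ • (inner ℂ u (F ((t : ℂ) * w)) •
          deriv F ((t : ℂ) * w) - inner ℂ u (deriv F ((t : ℂ) * w)) • F ((t : ℂ) * w))‖ ≤
          1 / 4 * (2 * r * (1 + (r * (13 / 25 * t + 2 / 25 * t ^ 3)) ^ 2)) :=
        mul_le_mul hw h1 (norm_nonneg _) (by norm_num)
      refine lt_of_le_of_lt h2 ?_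
      have h3 : 13 / 25 * t + 2 / 25 * t ^ 3 ≤ 3 / 5 * t := by
        have := ht.1
        have h4 : t ≤ 1 := ht.2.le.trans ht1
        have h5 : t ^ 3 ≤ t := by
          have h6 := mul_nonneg ht.1 (sub_nonneg.2 h4)
          have h7 := mul_nonneg (mul_nonneg ht.1 ht.1) (sub_nonneg.2 h4)
          nlinarith
        linarith
      have h4 : 0 ≤ 13 / 25 * t + 2 / 25 * t ^ 3 := by
        have := ht.1; positivity
      have h5 : (r * (13 / 25 * t + 2 / 25 * t ^ 3)) ^ 2 ≤ (3 / 5 * t) ^ 2 := by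
        refine pow_le_pow_left₀ (mul_nonneg hr.le h4) ?_ 2
        refine le_trans ?_ h3
        exact mul_le_of_le_one_left h4 hr1
      have h6 : 1 / 4 * (2 * (1 + (r * (13 / 25 * t + 2 / 25 * t ^ 3)) ^ 2)) <
          13 / 25 + 6 / 25 * t ^ 2 := by
        nlinarith [sq_nonneg t]
      calc 1 / 4 * (2 * r * (1 + (r * (13 / 25 * t + 2 / 25 * t ^ 3)) ^ 2))
          = r * (1 / 4 * (2 * (1 + (r * (13 / 25 * t + 2 / 25 * t ^ 3)) ^ 2))) := by ring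
        _ < r * (13 / 25 + 6 / 25 * t ^ 2) := mul_lt_mul_of_pos_left h6 hr)
  have h1 := key ⟨ht0, le_rfl⟩
  refine h1.trans ?_
  have h5 : t1 ^ 3 ≤ 1 := pow_le_one₀ ht0 ht1
  have h6 : r * (13 / 25 * t1 + 2 / 25 * t1 ^ 3) ≤ r * (3 / 5) :=
    mul_le_mul_of_nonneg_left (by linarith) hr.le
  linarith

theorem disc_coreR {r : ℝ} (hr : 0 < r) (hr1 : r ≤ 1) {u : V} (hu : ‖u‖ = 1) {F : ℂ → V}
    (hF : DifferentiableOn ℂ F (ball 0 1)) (hne : ∀ z ∈ ball (0 : ℂ) 1, F z ≠ 0)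
    (h0 : nc u F 0 = 0) (ha0 : inner ℂ u (F 0) ≠ 0)
    (hD : ∀ z ∈ ball (0 : ℂ) 1, wd (F z) (deriv F z) ≤ (2 * r) ^ 2 * ‖F z‖ ^ 4) {w : ℂ}
    (hw : ‖w‖ ≤ 1 / 4) : inner ℂ u (F w) ≠ 0 ∧ ‖nc u F w‖ ≤ 3 / 5 * r := by
  have hin : ∀ t ∈ Icc (0 : ℝ) 1, (t : ℂ) * w ∈ ball (0 : ℂ) 1 := by
    intro t ht
    rw [mem_ball_zero_iff, norm_mul, Complex.norm_real, Real.norm_of_nonneg ht.1]
    nlinarith [ht.1, ht.2, norm_nonneg w]
  have hFc : ContinuousOn (fun t : ℝ => F ((t : ℂ) * w)) (Icc 0 1) :=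
    hF.continuousOn.comp (by fun_prop) fun t ht => hin t ht
  have hAc : ContinuousOn (fun t : ℝ => inner ℂ u (F ((t : ℂ) * w))) (Icc 0 1) :=
    continuousOn_const.inner hFc
  set T : Set ℝ := {t | t ∈ Icc (0 : ℝ) 1 ∧
    2 * ‖inner ℂ u (F ((t : ℂ) * w))‖ ^ 2 ≤ ‖F ((t : ℂ) * w)‖ ^ 2} with hT
  have hTc : IsCompact T := by
    refine isCompact_Icc.of_isClosed_subset ?_ (fun t ht => ht.1)
    exact isClosed_Icc.isClosed_le (continuousOn_const.mul (hAc.norm.pow 2)) (hFc.norm.pow 2)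
  have hout : ∀ t ∈ Icc (0 : ℝ) 1, t ∉ T → inner ℂ u (F ((t : ℂ) * w)) ≠ 0 := by
    intro t ht htT h
    apply htT
    refine ⟨ht, ?_⟩
    rw [h, norm_zero]
    nlinarith [sq_nonneg ‖F ((t : ℂ) * w)‖]
  have hTe : T = ∅ := by
    by_contra hTn
    obtain ⟨t1, ht1, hmin⟩ := hTc.exists_isLeast (Set.nonempty_iff_ne_empty.2 hTn)
    have h01 : t1 ≠ 0 := by
      rintro rfl
      have h1 := ht1.2
      simp only [Complex.ofReal_zero, zero_mul] at h1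
      have h2 := nc_norm hu ha0
      rw [h0, norm_zero] at h2
      have h3 : 0 < ‖inner ℂ u (F 0)‖ ^ 2 := by
        have := norm_pos_iff.2 ha0
        positivity
      nlinarith
    have h01' : 0 < t1 := lt_of_le_of_ne ht1.1.1 (Ne.symm h01)
    have hlt : ∀ t ∈ Ico (0 : ℝ) t1, ‖F ((t : ℂ) * w)‖ ^ 2 ≤
        34 / 25 * ‖inner ℂ u (F ((t : ℂ) * w))‖ ^ 2 := by
      intro t ht
      have htt : ∀ s ∈ Icc (0 : ℝ) t, inner ℂ u (F ((s : ℂ) * w)) ≠ 0 := by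
        intro s hs
        refine hout s ⟨hs.1, (hs.2.trans ht.2.le).trans ht1.1.2⟩ fun hsT => ?_
        exact absurd (hmin hsT) (not_le.2 (lt_of_le_of_lt hs.2 ht.2))
      have h1 := path_boundR hr hr1 hu hF h0 hD hw ht.1 (ht.2.le.trans ht1.1.2) htt
      rw [nc_norm hu (htt t ⟨ht.1, le_rfl⟩)]
      refine mul_le_mul_of_nonneg_right ?_ (by positivity)
      nlinarith [norm_nonneg (nc u F ((t : ℂ) * w))]
    have hcl : t1 ∈ closure (Ico (0 : ℝ) t1) := by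
      rw [closure_Ico (Ne.symm h01)]
      exact ⟨h01'.le, le_rfl⟩
    have hsub : Ico (0 : ℝ) t1 ⊆ Icc 0 1 := fun t ht => ⟨ht.1, ht.2.le.trans ht1.1.2⟩
    have h3 : ‖F ((t1 : ℂ) * w)‖ ^ 2 ≤ 34 / 25 * ‖inner ℂ u (F ((t1 : ℂ) * w))‖ ^ 2 :=
      ContinuousWithinAt.closure_le
        (f := fun t : ℝ => ‖F ((t : ℂ) * w)‖ ^ 2)
        (g := fun t : ℝ => 34 / 25 * ‖inner ℂ u (F ((t : ℂ) * w))‖ ^ 2)
        hcl (((hFc.norm.pow 2) t1 ht1.1).mono hsub)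
        (((continuousOn_const.mul (hAc.norm.pow 2)) t1 ht1.1).mono hsub) hlt
    have h4 := ht1.2
    have h5 : ‖inner ℂ u (F ((t1 : ℂ) * w))‖ ^ 2 = 0 := by
      have := sq_nonneg ‖inner ℂ u (F ((t1 : ℂ) * w))‖
      linarith
    have h6 : ‖F ((t1 : ℂ) * w)‖ ^ 2 ≤ 0 := by rw [h5] at h3; linarith
    have h7 : ‖F ((t1 : ℂ) * w)‖ = 0 := by
      have := sq_nonneg ‖F ((t1 : ℂ) * w)‖
      exact pow_eq_zero_iff (two_ne_zero) |>.1 (le_antisymm h6 this)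
    exact hne _ (hin t1 ht1.1) (norm_eq_zero.1 h7)
  have hA : ∀ t ∈ Icc (0 : ℝ) 1, inner ℂ u (F ((t : ℂ) * w)) ≠ 0 := fun t ht =>
    hout t ht (by rw [hTe]; exact notMem_empty t)
  have h1 := path_boundR hr hr1 hu hF h0 hD hw zero_le_one le_rfl hA
  have h2 := hA 1 ⟨zero_le_one, le_rfl⟩
  rw [Complex.ofReal_one, one_mul] at h1 h2
  exact ⟨h2, h1⟩

end

/-- Hofer's lemma: rescaling -/
theorem rescaleR {m : ℕ} {r : ℝ} (hr : 0 < r) {f : ℂ → Fin m → ℂ} (hf : DifferentiableOn ℂ f (ball 0 1))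
    (hne : ∀ z ∈ ball (0 : ℂ) 1, f z ≠ 0) (h4 : 4 * r ≤ fs f 0) :
    ∃ (x : ℂ) (l : ℝ), 0 < l ∧ (∀ w ∈ ball (0 : ℂ) 1, x + l * w ∈ ball (0 : ℂ) 1) ∧
      l * fs f x = r ∧ ∀ w ∈ ball (0 : ℂ) 1, l * fs f (x + l * w) ≤ 2 * r := by
  have hsub : closedBall (0 : ℂ) (7 / 8) ⊆ ball 0 1 := closedBall_subset_ball (by norm_num)
  have hcomp : CompleteSpace (closedBall (0 : ℂ) (7 / 8)) := isClosed_closedBall.completeSpace_coe
  have h0 : (0 : ℂ) ∈ closedBall (0 : ℂ) (7 / 8) := mem_closedBall_self (by norm_num)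
  have hc : Continuous (fun z : closedBall (0 : ℂ) (7 / 8) => fs f z) :=
    continuousOn_iff_continuous_domRestrict.1 ((fs_cont hf hne).mono hsub)
  obtain ⟨e, he, x, he4, hx, h1, h2⟩ := hofer (⟨0, h0⟩ : closedBall (0 : ℂ) (7 / 8)) (1 / 4)
    (by norm_num) hc (fun z => fs_nonneg f z)
  have hx' : ‖(x : ℂ)‖ ≤ 1 / 2 := by
    have : dist (x : ℂ) 0 ≤ 2 * (1 / 4) := hx
    rw [dist_zero_right] at this
    linarith
  have h3 : r ≤ e * fs f x := by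
    have : 1 / 4 * fs f 0 ≤ e * fs f x := h1
    linarith
  have hp : 0 < fs f x := by
    by_contra h
    have : e * fs f x ≤ 0 := mul_nonpos_of_nonneg_of_nonpos he.le (not_lt.1 h)
    linarith
  have hl : 0 < r / fs f x := div_pos hr hp
  have hle : r / fs f x ≤ e := by
    rw [div_le_iff₀ hp]
    exact h3
  have hw : ∀ w ∈ ball (0 : ℂ) 1, ‖((r / fs f x : ℝ) : ℂ) * w‖ ≤ e := by
    intro w hw
    rw [mem_ball_zero_iff] at hw
    rw [norm_mul, Complex.norm_real, Real.norm_of_nonneg hl.le]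
    nlinarith [norm_nonneg w]
  refine ⟨x, r / fs f x, hl, fun w hwb => ?_, div_mul_cancel₀ r hp.ne', fun w hwb => ?_⟩
  · rw [mem_ball_zero_iff]
    refine lt_of_le_of_lt (norm_add_le _ _) ?_
    linarith [hw w hwb]
  · have hy : (x : ℂ) + ((r / fs f x : ℝ) : ℂ) * w ∈ closedBall (0 : ℂ) (7 / 8) := by
      rw [mem_closedBall_zero_iff]
      refine (norm_add_le _ _).trans ?_
      linarith [hw w hwb]
    have h5 := h2 ⟨_, hy⟩ (by
      show dist (x : ℂ) ((x : ℂ) + ((r / fs f x : ℝ) : ℂ) * w) ≤ e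
      rw [dist_self_add_right]
      exact hw w hwb)
    have h6 : fs f ((x : ℂ) + ((r / fs f x : ℝ) : ℂ) * w) ≤ 2 * fs f x := h5
    calc r / fs f x * fs f ((x : ℂ) + ((r / fs f x : ℝ) : ℂ) * w)
        ≤ r / fs f x * (2 * fs f x) := mul_le_mul_of_nonneg_left h6 hl.le
      _ = 2 * r := by field_simp

theorem geoR : GeoR := by
  intro m r hr hr1 f hf hne h4
  obtain ⟨x, l, hl, hin, hx1, hx2⟩ := rescaleR hr hf hne h4
  set F : ℂ → E m := fun w => toE (f (x + l * w)) with hFdef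
  have hln : ‖(l : ℂ)‖ = l := by rw [Complex.norm_real, Real.norm_of_nonneg hl.le]
  have hFd : ∀ w ∈ ball (0 : ℂ) 1, HasDerivAt F ((l : ℂ) • toE (deriv f (x + l * w))) w := by
    intro w hw
    have h1 : HasDerivAt (fun w : ℂ => x + l * w) (l : ℂ) w := by
      simpa using ((hasDerivAt_id w).const_mul (l : ℂ)).const_add x
    exact (deriv_toE (hf.differentiableAt (isOpen_ball.mem_nhds (hin w hw)))).scomp w h1
  have hFD : DifferentiableOn ℂ F (ball 0 1) := fun w hw =>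
    (hFd w hw).differentiableAt.differentiableWithinAt
  have hFne : ∀ w ∈ ball (0 : ℂ) 1, F w ≠ 0 := fun w hw => toE_ne (hne _ (hin w hw))
  have hwd : ∀ w ∈ ball (0 : ℂ) 1, wd (F w) (deriv F w) =
      (l * fs f (x + l * w)) ^ 2 * ‖F w‖ ^ 4 := by
    intro w hw
    rw [(hFd w hw).deriv, wd_smul, hln]
    have h1 := wd_eq (hne _ (hin w hw))
    show l ^ 2 * wd (toE (f (x + l * w))) (toE (deriv f (x + l * w))) = _
    rw [h1]
    show _ = (l * fs f (x + l * w)) ^ 2 * ‖toE (f (x + l * w))‖ ^ 4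
    ring
  have hD : ∀ w ∈ ball (0 : ℂ) 1, wd (F w) (deriv F w) ≤ (2 * r) ^ 2 * ‖F w‖ ^ 4 := by
    intro w hw
    rw [hwd w hw]
    refine mul_le_mul_of_nonneg_right ?_ (by positivity)
    have h1 := hx2 w hw
    have h2 : 0 ≤ l * fs f (x + l * w) := mul_nonneg hl.le (fs_nonneg _ _)
    exact pow_le_pow_left₀ h2 h1 2
  have hb0 : (0 : ℂ) ∈ ball (0 : ℂ) 1 := mem_ball_self one_pos
  have hF0 : 0 < ‖F 0‖ := norm_pos_iff.2 (hFne 0 hb0)
  have hF0c : ((‖F 0‖ : ℝ) : ℂ) ≠ 0 := by exact_mod_cast hF0.ne'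
  set u : E m := ((‖F 0‖ : ℝ) : ℂ)⁻¹ • F 0 with hu
  have hun : ‖u‖ = 1 := by
    rw [hu, norm_smul, norm_inv, Complex.norm_real, norm_norm, inv_mul_cancel₀ hF0.ne']
  have hFu : F 0 = ((‖F 0‖ : ℝ) : ℂ) • u := by
    rw [hu, smul_smul, mul_inv_cancel₀ hF0c, one_smul]
  have hin0 : inner ℂ u (F 0) = ((‖F 0‖ : ℝ) : ℂ) := by
    conv_lhs => rw [hFu]
    rw [inner_smul_right, inner_self_one hun, mul_one]
  have ha0 : inner ℂ u (F 0) ≠ 0 := by rw [hin0]; exact hF0c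
  have hn0 : nc u F 0 = 0 := by
    unfold nc
    rw [hin0, ← hu, sub_self]
  have core : ∀ t ∈ ball (0 : ℂ) 1, inner ℂ u (F (t / 4)) ≠ 0 ∧ ‖nc u F (t / 4)‖ ≤ 3 / 5 * r := by
    intro t ht
    apply disc_coreR hr hr1 hun hFD hFne hn0 ha0 hD
    rw [mem_ball_zero_iff] at ht
    rw [norm_div, Complex.norm_ofNat]
    linarith
  have hin4 : ∀ t ∈ ball (0 : ℂ) 1, t / 4 ∈ ball (0 : ℂ) 1 := by
    intro t ht
    rw [mem_ball_zero_iff] at ht ⊢
    rw [norm_div, Complex.norm_ofNat]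
    linarith
  set h : ℂ → E m := fun t => (inner ℂ u (F (t / 4)))⁻¹ • F (t / 4) with hh
  have hhn : ∀ t, h t = nc u F (t / 4) + u := by
    intro t
    rw [hh]
    unfold nc
    simp
  have hhd : ∀ t ∈ ball (0 : ℂ) 1, HasDerivAt h
      ((1 / 4 : ℂ) • (((inner ℂ u (F (t / 4))) ^ 2)⁻¹ • (inner ℂ u (F (t / 4)) • deriv F (t / 4) -
        inner ℂ u (deriv F (t / 4)) • F (t / 4)))) t := by
    intro t ht
    have h1 : HasDerivAt (fun t : ℂ => t / 4) (1 / 4) t := (hasDerivAt_id t).div_const 4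
    have h2 := nc_deriv (u := u) (hFd _ (hin4 t ht)) (core t ht).1
    rw [← (hFd _ (hin4 t ht)).deriv] at h2
    have h3 := (h2.scomp t h1).add_const u
    exact h3.congr_of_eventuallyEq (Eventually.of_forall fun s => hhn s)
  have hh0 : h 0 = u := by
    rw [hhn, zero_div, hn0, zero_add]
  refine ⟨h, ⟨fun t ht => (hhd t ht).differentiableAt.differentiableWithinAt, by rw [hh0, hun],
    fun t ht => ?_, fun t ht => ?_, ?_⟩, fun t ht => ⟨x + l * (t / 4), hin _ (hin4 t ht),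
      (inner ℂ u (F (t / 4)))⁻¹, ?_⟩⟩
  · rw [hh0, hhn, add_sub_cancel_right]
    exact nc_orth hun (core t ht).1
  · rw [hh0, hhn, add_sub_cancel_right]
    exact (core t ht).2
  · rw [(hhd 0 hb0).deriv, zero_div, norm_smul, norm_smul, norm_inv, norm_pow]
    have h1 : ‖inner ℂ u (F 0) • deriv F 0 - inner ℂ u (deriv F 0) • F 0‖ ^ 2 =
        wd (F 0) (deriv F 0) := by
      have h2 := gram_eq hun ((‖F 0‖ : ℝ) : ℂ) (deriv F 0)
      rw [← hFu] at h2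
      exact h2
    have h2 : wd (F 0) (deriv F 0) = (r * ‖F 0‖ ^ 2) ^ 2 := by
      rw [hwd 0 hb0, mul_zero, add_zero, hx1]
      ring
    have h3 : ‖inner ℂ u (F 0) • deriv F 0 - inner ℂ u (deriv F 0) • F 0‖ = r * ‖F 0‖ ^ 2 := by
      rw [h2] at h1
      exact (pow_left_inj₀ (norm_nonneg _) (by positivity) two_ne_zero).1 h1
    rw [h3, hin0, Complex.norm_real, norm_norm]
    have h5 : (‖F 0‖ ^ 2)⁻¹ * (r * ‖F 0‖ ^ 2) = r := by
      field_simp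
    rw [h5]
    norm_num
    linarith
  · show ((inner ℂ u (F (t / 4)))⁻¹ • F (t / 4)).ofLp = _
    rfl

end Pool.Agent.H74.RK
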