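import Pool.Agent.H48.RK.Defs

/-!
# Theorem R, module GEO, part A: curves with bounded Fubini-Study derivative

`wd x y` is the Gram determinant of `x` and `y`.
-/

set_option autoImplicit false

namespace Pool.Agent.H74.RK

open MeasureTheory Metric Set
open scoped BigOperators ComplexConjugate InnerProductSpace

variable {V : Type*} [NormedAddCommGroup V] [InnerProductSpace ℂ V]

/-- Gram determinant of two vectors -/
noncomputable def wd (x y : V) : ℝ := ‖x‖ ^ 2 * ‖y‖ ^ 2 - ‖inner ℂ x y‖ ^ 2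

theorem wd_nonneg (x y : V) : 0 ≤ wd x y := by
  have h : ‖inner ℂ x y‖ ≤ ‖x‖ * ‖y‖ := norm_inner_le_norm x y
  have h2 : ‖inner ℂ x y‖ ^ 2 ≤ (‖x‖ * ‖y‖) ^ 2 := pow_le_pow_left₀ (norm_nonneg _) h 2
  unfold wd
  rw [mul_pow] at h2
  linarith

theorem inner_self_one {u : V} (hu : ‖u‖ = 1) : inner ℂ u u = (1 : ℂ) := by
  rw [inner_self_eq_norm_sq_to_K, hu]; simp

/-- component orthogonal to a unit vector -/
theorem orth_comp {u : V} (hu : ‖u‖ = 1) (x : V) : inner ℂ u (x - inner ℂ u x • u) = 0 := by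
  rw [inner_sub_right, inner_smul_right, inner_self_one hu, mul_one, sub_self]

theorem norm_sq_add_orth {u X : V} (hu : ‖u‖ = 1) (hX : inner ℂ u X = 0) (a : ℂ) :
    ‖a • u + X‖ ^ 2 = ‖a‖ ^ 2 + ‖X‖ ^ 2 := by
  have h := @norm_add_sq ℂ V _ _ _ (a • u) X
  rw [inner_smul_left, hX, mul_zero, map_zero, mul_zero, add_zero, norm_smul, hu, mul_one] at h
  exact h

/-- the Gram determinant of `x`, `y` and a unit vector `u` is nonnegative -/
theorem gram {u : V} (hu : ‖u‖ = 1) (x y : V) :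
    ‖inner ℂ u x • y - inner ℂ u y • x‖ ^ 2 ≤ wd x y := by
  obtain ⟨X, hX, hx⟩ : ∃ X : V, inner ℂ u X = 0 ∧ x = inner ℂ u x • u + X :=
    ⟨x - inner ℂ u x • u, orth_comp hu x, by abel⟩
  obtain ⟨Y, hY, hy⟩ : ∃ Y : V, inner ℂ u Y = 0 ∧ y = inner ℂ u y • u + Y :=
    ⟨y - inner ℂ u y • u, orth_comp hu y, by abel⟩
  set a : ℂ := inner ℂ u x with ha
  set b : ℂ := inner ℂ u y with hb
  have e1 : a • y - b • x = a • Y - b • X := by
    rw [hx, hy, smul_add, smul_add, smul_smul, smul_smul, mul_comm b a]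
    abel
  have hXu : inner ℂ X u = (0 : ℂ) := by
    rw [← inner_conj_symm, hX, map_zero]
  have nx : ‖x‖ ^ 2 = ‖a‖ ^ 2 + ‖X‖ ^ 2 := by
    rw [hx]; exact norm_sq_add_orth hu hX a
  have ny : ‖y‖ ^ 2 = ‖b‖ ^ 2 + ‖Y‖ ^ 2 := by
    rw [hy]; exact norm_sq_add_orth hu hY b
  have nxy : inner ℂ x y = conj a * b + inner ℂ X Y := by
    rw [hx, hy, inner_add_left, inner_add_right, inner_add_right, inner_smul_left,
      inner_smul_left, inner_smul_right, inner_smul_right, inner_self_one hu, hY, hXu]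
    ring
  have n1 : ‖a • Y - b • X‖ ^ 2 = ‖a‖ ^ 2 * ‖Y‖ ^ 2 + ‖b‖ ^ 2 * ‖X‖ ^ 2 -
      2 * (a * conj b * inner ℂ X Y).re := by
    have h := @norm_sub_sq ℂ V _ _ _ (a • Y) (b • X)
    rw [h, norm_smul, norm_smul, inner_smul_left, inner_smul_right]
    have h2 : RCLike.re (conj a * (b * inner ℂ Y X)) = (a * conj b * inner ℂ X Y).re := by
      rw [← inner_conj_symm Y X]
      show (conj a * (b * conj (inner ℂ X Y))).re = _
      rw [← Complex.conj_re (a * conj b * inner ℂ X Y)]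
      congr 1
      simp only [map_mul, Complex.conj_conj]
      ring
    rw [h2]
    ring
  have n2 : ‖inner ℂ x y‖ ^ 2 = ‖a‖ ^ 2 * ‖b‖ ^ 2 + ‖inner ℂ X Y‖ ^ 2 +
      2 * (a * conj b * inner ℂ X Y).re := by
    rw [nxy]
    have h := Complex.normSq_add (conj a * b) (inner ℂ X Y)
    rw [Complex.normSq_eq_norm_sq, Complex.normSq_eq_norm_sq, Complex.normSq_eq_norm_sq,
      norm_mul, Complex.norm_conj] at h
    rw [h]
    have h3 : (conj a * b * conj (inner ℂ X Y)).re = (a * conj b * inner ℂ X Y).re := by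
      rw [← Complex.conj_re (a * conj b * inner ℂ X Y)]
      congr 1
      simp only [map_mul, Complex.conj_conj]
    rw [h3]
    ring
  have h4 := wd_nonneg X Y
  rw [e1, n1]
  unfold wd at h4 ⊢
  rw [nx, ny, n2]
  nlinarith

/-- equality if `x` is a multiple of `u` -/
theorem gram_eq {u : V} (hu : ‖u‖ = 1) (c : ℂ) (y : V) :
    ‖inner ℂ u (c • u) • y - inner ℂ u y • (c • u)‖ ^ 2 = wd (c • u) y := by
  obtain ⟨Y, hY, hy⟩ : ∃ Y : V, inner ℂ u Y = 0 ∧ y = inner ℂ u y • u + Y :=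
    ⟨y - inner ℂ u y • u, orth_comp hu y, by abel⟩
  set b : ℂ := inner ℂ u y with hb
  have ny : ‖y‖ ^ 2 = ‖b‖ ^ 2 + ‖Y‖ ^ 2 := by
    rw [hy]; exact norm_sq_add_orth hu hY b
  have e1 : inner ℂ u (c • u) • y - b • (c • u) = c • Y := by
    rw [inner_smul_right, inner_self_one hu, mul_one]
    rw [hy, smul_add, smul_smul, smul_smul, mul_comm b c]
    abel
  unfold wd
  rw [e1, norm_smul, norm_smul, hu, inner_smul_left, ← hb, norm_mul, Complex.norm_conj, ny]
  ring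

end Pool.Agent.H74.RK
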