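import Pool.Agent.H74.RK.GeoA

/-!
# Theorem R, module GEO, part B: a curve whose Fubini-Study derivative is at most `2` stays in a
chart on the disc of radius `1/4`
-/

set_option autoImplicit false

namespace Pool.Agent.H74.RK

open MeasureTheory Metric Set Filter Topology
open scoped BigOperators ComplexConjugate InnerProductSpace

variable {V : Type*} [NormedAddCommGroup V] [InnerProductSpace ℂ V]

/-- the affine coordinate of a curve with respect to the direction `u` -/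
noncomputable def nc (u : V) (F : ℂ → V) (w : ℂ) : V := (inner ℂ u (F w))⁻¹ • F w - u

theorem nc_orth {u : V} (hu : ‖u‖ = 1) {F : ℂ → V} {w : ℂ} (ha : inner ℂ u (F w) ≠ 0) :
    inner ℂ u (nc u F w) = 0 := by
  unfold nc
  rw [inner_sub_right, inner_smul_right, inner_self_one hu, inv_mul_cancel₀ ha, sub_self]

/-- `‖F‖² = (1 + ‖p‖²) |⟨u, F⟩|²` -/
theorem nc_norm {u : V} (hu : ‖u‖ = 1) {F : ℂ → V} {w : ℂ} (ha : inner ℂ u (F w) ≠ 0) :
    ‖F w‖ ^ 2 = (1 + ‖nc u F w‖ ^ 2) * ‖inner ℂ u (F w)‖ ^ 2 := by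
  have h := norm_sq_add_orth hu (nc_orth hu ha) 1
  have e : (1 : ℂ) • u + nc u F w = (inner ℂ u (F w))⁻¹ • F w := by
    unfold nc; rw [one_smul]; abel
  rw [e, norm_smul, norm_inv, norm_one, one_pow] at h
  have hp : ‖inner ℂ u (F w)‖ ≠ 0 := norm_ne_zero_iff.2 ha
  rw [← h]
  field_simp

theorem nc_deriv {u : V} {F : ℂ → V} {F' : V} {z : ℂ} (hF : HasDerivAt F F' z)
    (ha : inner ℂ u (F z) ≠ 0) :
    HasDerivAt (nc u F)
      (((inner ℂ u (F z)) ^ 2)⁻¹ • (inner ℂ u (F z) • F' - inner ℂ u F' • F z)) z := by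
  have hA : HasDerivAt (fun w => inner ℂ u (F w)) (inner ℂ u F') z :=
    ((innerSL ℂ u).hasFDerivAt (x := F z)).comp_hasDerivAt z hF
  have h1 := ((hA.inv ha).smul hF).sub_const u
  refine h1.congr_deriv ?_
  simp only [Pi.inv_apply]
  rw [smul_sub, smul_smul, smul_smul, neg_div, neg_smul, sub_eq_add_neg]
  congr 2
  · field_simp
  · congr 1
    field_simp

theorem nc_bound {u : V} (hu : ‖u‖ = 1) {F : ℂ → V} {F' : V} {z : ℂ}
    (ha : inner ℂ u (F z) ≠ 0) (hD : wd (F z) F' ≤ 4 * ‖F z‖ ^ 4) :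
    ‖((inner ℂ u (F z)) ^ 2)⁻¹ • (inner ℂ u (F z) • F' - inner ℂ u F' • F z)‖ ≤
      2 * (1 + ‖nc u F z‖ ^ 2) := by
  have hp : 0 < ‖inner ℂ u (F z)‖ := norm_pos_iff.2 ha
  have h1 : ‖inner ℂ u (F z) • F' - inner ℂ u F' • F z‖ ≤ 2 * ‖F z‖ ^ 2 := by
    refine abs_le_of_sq_le_sq' ?_ (by positivity) |>.2
    refine ((gram hu (F z) F').trans hD).trans (le_of_eq ?_)
    ring
  rw [norm_smul, norm_inv, norm_pow, inv_mul_le_iff₀ (by positivity)]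
  refine h1.trans (le_of_eq ?_)
  rw [nc_norm hu ha]
  ring

theorem path_bound {u : V} (hu : ‖u‖ = 1) {F : ℂ → V}
    (hF : DifferentiableOn ℂ F (ball 0 1)) (h0 : nc u F 0 = 0)
    (hD : ∀ z ∈ ball (0 : ℂ) 1, wd (F z) (deriv F z) ≤ 4 * ‖F z‖ ^ 4) {w : ℂ}
    (hw : ‖w‖ ≤ 1 / 4) {t1 : ℝ} (ht0 : 0 ≤ t1) (ht1 : t1 ≤ 1)
    (hA : ∀ t ∈ Icc (0 : ℝ) t1, inner ℂ u (F ((t : ℂ) * w)) ≠ 0) :
    ‖nc u F ((t1 : ℂ) * w)‖ ≤ 3 / 5 := by
  have hin : ∀ t ∈ Icc (0 : ℝ) t1, (t : ℂ) * w ∈ ball (0 : ℂ) 1 := by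
    intro t ht
    rw [mem_ball_zero_iff, norm_mul, Complex.norm_real, Real.norm_of_nonneg ht.1]
    nlinarith [ht.1, ht.2, norm_nonneg w]
  have hder : ∀ t ∈ Icc (0 : ℝ) t1, HasDerivAt (fun s : ℝ => nc u F ((s : ℂ) * w))
      (w • (((inner ℂ u (F ((t : ℂ) * w))) ^ 2)⁻¹ • (inner ℂ u (F ((t : ℂ) * w)) •
        deriv F ((t : ℂ) * w) - inner ℂ u (deriv F ((t : ℂ) * w)) • F ((t : ℂ) * w)))) t := by
    intro t ht
    have h1 : HasDerivAt F (deriv F ((t : ℂ) * w)) ((t : ℂ) * w) :=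
      (hF.differentiableAt (isOpen_ball.mem_nhds (hin t ht))).hasDerivAt
    have h2 := nc_deriv (u := u) h1 (hA t ht)
    have h3 : HasDerivAt (fun s : ℝ => (s : ℂ) * w) w t := by
      simpa using (Complex.ofRealCLM.hasDerivAt (x := t)).mul_const w
    exact h2.scomp t h3
  have key := image_norm_le_of_norm_deriv_right_lt_deriv_boundary'
    (f := fun s : ℝ => nc u F ((s : ℂ) * w)) (a := 0) (b := t1)
    (f' := fun t => w • (((inner ℂ u (F ((t : ℂ) * w))) ^ 2)⁻¹ • (inner ℂ u (F ((t : ℂ) * w)) •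
        deriv F ((t : ℂ) * w) - inner ℂ u (deriv F ((t : ℂ) * w)) • F ((t : ℂ) * w))))
    (fun t ht => (hder t ht).continuousAt.continuousWithinAt)
    (fun t ht => (hder t ⟨ht.1, ht.2.le⟩).hasDerivWithinAt)
    (B := fun t => 13 / 25 * t + 2 / 25 * t ^ 3) (B' := fun t => 13 / 25 + 6 / 25 * t ^ 2)
    (by simp [h0]) (by fun_prop)
    (fun t ht => by
      have h1 : HasDerivAt (fun t : ℝ => 13 / 25 * t + 2 / 25 * t ^ 3)
          (13 / 25 * 1 + 2 / 25 * ((3 : ℕ) * t ^ 2 * 1)) t :=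
        ((hasDerivAt_id t).const_mul (13 / 25)).add (((hasDerivAt_id t).pow 3).const_mul (2 / 25))
      refine (h1.congr_deriv ?_).hasDerivWithinAt
      push_cast; ring)
    (fun t ht hB => by
      have ht' : t ∈ Icc (0 : ℝ) t1 := ⟨ht.1, ht.2.le⟩
      have h1 := nc_bound hu (hA t ht') (hD _ (hin t ht'))
      rw [norm_smul]
      rw [hB] at h1
      have h2 : ‖w‖ * ‖((inner ℂ u (F ((t : ℂ) * w))) ^ 2)⁻¹ • (inner ℂ u (F ((t : ℂ) * w)) •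
          deriv F ((t : ℂ) * w) - inner ℂ u (deriv F ((t : ℂ) * w)) • F ((t : ℂ) * w))‖ ≤
          1 / 4 * (2 * (1 + (13 / 25 * t + 2 / 25 * t ^ 3) ^ 2)) :=
        mul_le_mul hw h1 (norm_nonneg _) (by norm_num)
      refine lt_of_le_of_lt h2 ?_
      have h3 : 13 / 25 * t + 2 / 25 * t ^ 3 ≤ 3 / 5 * t := by
        have := ht.1
        have h4 : t ≤ 1 := ht.2.le.trans ht1
        have h5 : t ^ 3 ≤ t := by
          have h6 := mul_nonneg ht.1 (sub_nonneg.2 h4)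
          have h7 := mul_nonneg (mul_nonneg ht.1 ht.1) (sub_nonneg.2 h4)
          nlinarith
        linarith
      have h4 : 0 ≤ 13 / 25 * t + 2 / 25 * t ^ 3 := by
        have := ht.1; positivity
      have h5 : (13 / 25 * t + 2 / 25 * t ^ 3) ^ 2 ≤ (3 / 5 * t) ^ 2 :=
        pow_le_pow_left₀ h4 h3 2
      nlinarith [sq_nonneg t])
  have h1 := key ⟨ht0, le_rfl⟩
  refine h1.trans ?_
  have h5 : t1 ^ 3 ≤ 1 := pow_le_one₀ ht0 ht1
  linarith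

theorem disc_core {u : V} (hu : ‖u‖ = 1) {F : ℂ → V}
    (hF : DifferentiableOn ℂ F (ball 0 1)) (hne : ∀ z ∈ ball (0 : ℂ) 1, F z ≠ 0)
    (h0 : nc u F 0 = 0) (ha0 : inner ℂ u (F 0) ≠ 0)
    (hD : ∀ z ∈ ball (0 : ℂ) 1, wd (F z) (deriv F z) ≤ 4 * ‖F z‖ ^ 4) {w : ℂ}
    (hw : ‖w‖ ≤ 1 / 4) : inner ℂ u (F w) ≠ 0 ∧ ‖nc u F w‖ ≤ 3 / 5 := by
  have hin : ∀ t ∈ Icc (0 : ℝ) 1, (t : ℂ) * w ∈ ball (0 : ℂ) 1 := by
    intro t ht
    rw [mem_ball_zero_iff, norm_mul, Complex.norm_real, Real.norm_of_nonneg ht.1]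
    nlinarith [ht.1, ht.2, norm_nonneg w]
  have hFc : ContinuousOn (fun t : ℝ => F ((t : ℂ) * w)) (Icc 0 1) :=
    hF.continuousOn.comp (by fun_prop) fun t ht => hin t ht
  have hAc : ContinuousOn (fun t : ℝ => inner ℂ u (F ((t : ℂ) * w))) (Icc 0 1) :=
    continuousOn_const.inner hFc
  set T : Set ℝ := {t | t ∈ Icc (0 : ℝ) 1 ∧
    2 * ‖inner ℂ u (F ((t : ℂ) * w))‖ ^ 2 ≤ ‖F ((t : ℂ) * w)‖ ^ 2} with hT
  have hTc : IsCompact T := by
    refine isCompact_Icc.of_isClosed_subset ?_ (fun t ht => ht.1)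
    exact isClosed_Icc.isClosed_le (continuousOn_const.mul (hAc.norm.pow 2)) (hFc.norm.pow 2)
  have hout : ∀ t ∈ Icc (0 : ℝ) 1, t ∉ T → inner ℂ u (F ((t : ℂ) * w)) ≠ 0 := by
    intro t ht htT h
    apply htT
    refine ⟨ht, ?_⟩
    rw [h, norm_zero]
    nlinarith [sq_nonneg ‖F ((t : ℂ) * w)‖]
  have hTe : T = ∅ := by
    by_contra hTn
    obtain ⟨t1, ht1, hmin⟩ := hTc.exists_isLeast (Set.nonempty_iff_ne_empty.2 hTn)
    have h01 : t1 ≠ 0 := by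
      rintro rfl
      have h1 := ht1.2
      simp only [Complex.ofReal_zero, zero_mul] at h1
      have h2 := nc_norm hu ha0
      rw [h0, norm_zero] at h2
      have h3 : 0 < ‖inner ℂ u (F 0)‖ ^ 2 := by
        have := norm_pos_iff.2 ha0
        positivity
      nlinarith
    have h01' : 0 < t1 := lt_of_le_of_ne ht1.1.1 (Ne.symm h01)
    have hlt : ∀ t ∈ Ico (0 : ℝ) t1, ‖F ((t : ℂ) * w)‖ ^ 2 ≤
        34 / 25 * ‖inner ℂ u (F ((t : ℂ) * w))‖ ^ 2 := by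
      intro t ht
      have htt : ∀ s ∈ Icc (0 : ℝ) t, inner ℂ u (F ((s : ℂ) * w)) ≠ 0 := by
        intro s hs
        refine hout s ⟨hs.1, (hs.2.trans ht.2.le).trans ht1.1.2⟩ fun hsT => ?_
        exact absurd (hmin hsT) (not_le.2 (lt_of_le_of_lt hs.2 ht.2))
      have h1 := path_bound hu hF h0 hD hw ht.1 (ht.2.le.trans ht1.1.2) htt
      rw [nc_norm hu (htt t ⟨ht.1, le_rfl⟩)]
      refine mul_le_mul_of_nonneg_right ?_ (by positivity)
      nlinarith [norm_nonneg (nc u F ((t : ℂ) * w))]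
    have hcl : t1 ∈ closure (Ico (0 : ℝ) t1) := by
      rw [closure_Ico (Ne.symm h01)]
      exact ⟨h01'.le, le_rfl⟩
    have hsub : Ico (0 : ℝ) t1 ⊆ Icc 0 1 := fun t ht => ⟨ht.1, ht.2.le.trans ht1.1.2⟩
    have h3 : ‖F ((t1 : ℂ) * w)‖ ^ 2 ≤ 34 / 25 * ‖inner ℂ u (F ((t1 : ℂ) * w))‖ ^ 2 :=
      ContinuousWithinAt.closure_le
        (f := fun t : ℝ => ‖F ((t : ℂ) * w)‖ ^ 2)
        (g := fun t : ℝ => 34 / 25 * ‖inner ℂ u (F ((t : ℂ) * w))‖ ^ 2)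
        hcl (((hFc.norm.pow 2) t1 ht1.1).mono hsub)
        (((continuousOn_const.mul (hAc.norm.pow 2)) t1 ht1.1).mono hsub) hlt
    have h4 := ht1.2
    have h5 : ‖inner ℂ u (F ((t1 : ℂ) * w))‖ ^ 2 = 0 := by
      have := sq_nonneg ‖inner ℂ u (F ((t1 : ℂ) * w))‖
      linarith
    have h6 : ‖F ((t1 : ℂ) * w)‖ ^ 2 ≤ 0 := by rw [h5] at h3; linarith
    have h7 : ‖F ((t1 : ℂ) * w)‖ = 0 := by
      have := sq_nonneg ‖F ((t1 : ℂ) * w)‖
      exact pow_eq_zero_iff (two_ne_zero) |>.1 (le_antisymm h6 this)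
    exact hne _ (hin t1 ht1.1) (norm_eq_zero.1 h7)
  have hA : ∀ t ∈ Icc (0 : ℝ) 1, inner ℂ u (F ((t : ℂ) * w)) ≠ 0 := fun t ht =>
    hout t ht (by rw [hTe]; exact notMem_empty t)
  have h1 := path_bound hu hF h0 hD hw zero_le_one le_rfl hA
  have h2 := hA 1 ⟨zero_le_one, le_rfl⟩
  rw [Complex.ofReal_one, one_mul] at h1 h2
  exact ⟨h2, h1⟩

end Pool.Agent.H74.RK
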